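import Mathlib

set_option autoImplicit false

namespace Pool.Agent.Results.MP_375cbb_nt.Odd

open PowerSeries Nat

noncomputable def B (b n : ℕ) : ℚ :=
  n ! * coeff n (PowerSeries.mk fun k => (b ! : ℚ) / (b + k)!)⁻¹

lemma B_zero (b : ℕ) : B b 0 = 1 := by
  have : (b ! : ℚ) ≠ 0 := by positivity
  simp [B, ← coeff_zero_eq_constantCoeff_apply, PowerSeries.coeff_inv, this]

lemma rec_B (b n : ℕ) (hn : 1 ≤ n) :
    ∑ k ∈ Finset.range (n + 1), ((b + n).choose k : ℚ) * B b k = 0 := by
  have hb : (b ! : ℚ) ≠ 0 := by positivity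
  have h := PowerSeries.inv_mul_cancel (PowerSeries.mk fun k => (b ! : ℚ) / (b + k)!)
    (by simp [← coeff_zero_eq_constantCoeff_apply, hb])
  have h2 := congrArg (coeff n) h
  rw [coeff_mul, coeff_one, if_neg (by omega), Finset.Nat.sum_antidiagonal_eq_sum_range_succ_mk]
    at h2
  have : ∑ k ∈ Finset.range (n + 1), ((b + n).choose k : ℚ) * B b k =
      ((b + n)! / b ! : ℚ) * 0 := by
    rw [← h2, Finset.mul_sum]
    refine Finset.sum_congr rfl fun k hk => ?_
    have hk' : k ≤ n := by simpa [Nat.lt_succ_iff] using hk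
    rw [Nat.cast_choose ℚ (by omega : k ≤ b + n), B, coeff_mk, show b + n - k = b + (n - k) by omega]
    field_simp
  simpa using this

lemma odd_den (q : ℚ) : ¬ Even q.den ↔ padicNorm 2 q ≤ 1 := by
  have : Fact (Nat.Prime 2) := ⟨Nat.prime_two⟩
  have := Padic.norm_rat_le_one (p := 2) (q := q)
  constructor
  · intro h
    have h2 := this (fun h' => h (even_iff_two_dvd.mpr h'))
    rw [Padic.eq_padicNorm] at h2
    exact_mod_cast h2
  · intro h he
    have h1 : padicNorm 2 (q.num : ℚ) = padicNorm 2 q * padicNorm 2 (q.den : ℚ) := by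
      rw [← padicNorm.mul, Rat.mul_den_eq_num]
    have h2 : padicNorm 2 (q.den : ℚ) < 1 := (padicNorm.nat_lt_one_iff _).mpr he.two_dvd
    have h3 : padicNorm 2 (q.num : ℚ) = 1 := (padicNorm.int_eq_one_iff _).mpr fun h' => by
      have := Nat.dvd_gcd (Int.natCast_dvd.mp h') he.two_dvd
      rw [q.reduced] at this
      norm_num at this
    nlinarith [padicNorm.nonneg (p := 2) q, padicNorm.nonneg (p := 2) (q.den : ℚ)]

lemma lucas (v m r k : ℕ) (hr : r < 2 ^ v) (hk : k < 2 ^ v) (j : ℕ) :
    (2 ^ v * m + r).choose (2 ^ v * j + k) ≡ r.choose k * m.choose j [MOD 2] := by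
  have : Fact (Nat.Prime 2) := ⟨Nat.prime_two⟩
  induction v generalizing r k with
  | zero =>
    obtain rfl : r = 0 := by omega
    obtain rfl : k = 0 := by omega
    simp [Nat.ModEq]
  | succ v ih =>
    have h1 := Choose.choose_modEq_choose_mod_mul_choose_div_nat (n := 2 ^ (v + 1) * m + r)
      (k := 2 ^ (v + 1) * j + k) (p := 2)
    have h2 := Choose.choose_modEq_choose_mod_mul_choose_div_nat (n := r) (k := k) (p := 2)
    have e : ∀ a c : ℕ, (2 ^ (v + 1) * a + c) % 2 = c % 2 ∧
        (2 ^ (v + 1) * a + c) / 2 = 2 ^ v * a + c / 2 := fun a c => by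
      rw [pow_succ, mul_right_comm]
      omega
    rw [(e m r).1, (e m r).2, (e j k).1, (e j k).2] at h1
    refine h1.trans (((ih (r / 2) (k / 2) (by omega) (by omega)).mul_left _).trans ?_)
    rw [← mul_assoc]
    exact h2.symm.mul_right _

theorem result (b : ℕ) (hb : 1 ≤ b) :
    IsLeast {n : ℕ | Even (B b n).den}
      (if b % 4 = 0 then 2 ^ padicValNat 2 b else padicValNat 2 b + 1) := by
  have : Fact (Nat.Prime 2) := ⟨Nat.prime_two⟩
  obtain ⟨v, m, hm, rfl⟩ := Nat.exists_eq_two_pow_mul_odd (by omega : b ≠ 0)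
  have hv : padicValNat 2 (2 ^ v * m) = v := by
    rw [padicValNat.mul (by positivity) hm.pos.ne', padicValNat.prime_pow,
      padicValNat.eq_zero_of_not_dvd hm.not_two_dvd_nat, add_zero]
  have hval : (if 2 ^ v * m % 4 = 0 then 2 ^ v else v + 1) = 2 ^ v := by
    split_ifs with h
    · rfl
    · rcases v with _ | _ | v
      · rfl
      · rfl
      · exact absurd (by rw [pow_succ, pow_succ, mul_assoc (2 ^ v), mul_right_comm]; omega) h
  rw [hv, hval]
  have small : ∀ n < 2 ^ v, padicNorm 2 (B (2 ^ v * m) n) ≤ 1 := by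
    intro n
    induction n using Nat.strong_induction_on with
    | _ n ih =>
      intro hn
      rcases Nat.eq_zero_or_pos n with rfl | h0
      · simp [B_zero]
      have h := rec_B (2 ^ v * m) n h0
      rw [Finset.sum_range_succ, add_eq_zero_iff_neg_eq] at h
      have h1 := lucas v m n n hn hn 0
      simp only [mul_zero, zero_add, choose_self, choose_zero_right, mul_one] at h1
      have h2 : padicNorm 2 ((2 ^ v * m + n).choose n : ℚ) = 1 :=
        (padicNorm.nat_eq_one_iff _).mpr (by unfold Nat.ModEq at h1; omega)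
      have h3 := congrArg (padicNorm 2) h
      rw [padicNorm.mul, h2, one_mul, padicNorm.neg] at h3
      rw [← h3]
      refine padicNorm.sum_le' (fun k hk => ?_) zero_le_one
      have hk' := Finset.mem_range.mp hk
      rw [padicNorm.mul]
      exact mul_le_one₀ (padicNorm.of_nat _) (padicNorm.nonneg _) (ih k hk' (by omega))
  refine ⟨?_, fun n hn => ?_⟩
  · by_contra hc
    have hc' := (odd_den _).mp hc
    have hp : 0 < 2 ^ v := by positivity
    have h := rec_B (2 ^ v * m) (2 ^ v) hp
    rw [Finset.sum_range_succ', Nat.choose_zero_right, B_zero, add_eq_zero_iff_neg_eq] at h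
    have h3 := congrArg (padicNorm 2) h
    rw [padicNorm.neg] at h3
    have : padicNorm 2 (∑ k ∈ Finset.range (2 ^ v),
        ((2 ^ v * m + 2 ^ v).choose (k + 1) : ℚ) * B (2 ^ v * m) (k + 1)) < 1 := by
      refine padicNorm.sum_lt' (fun k hk => ?_) zero_lt_one
      have hk' := Finset.mem_range.mp hk
      have h4 : 2 ∣ (2 ^ v * m + 2 ^ v).choose (k + 1) := by
        obtain ⟨t, rfl⟩ := hm
        rcases (show k + 1 ≤ 2 ^ v by omega).lt_or_eq with h5 | h5
        · have := lucas v (2 * t + 1 + 1) 0 (k + 1) hp h5 0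
          simp only [mul_zero, zero_add, add_zero, choose_zero_succ, zero_mul] at this
          rw [← mul_add_one]
          exact (Nat.modEq_zero_iff_dvd).mp this
        · have := lucas v (2 * t + 1 + 1) 0 0 hp hp 1
          simp only [mul_one, add_zero, choose_self, one_mul, choose_one_right] at this
          rw [← mul_add_one, h5]
          unfold Nat.ModEq at this
          omega
      have h6 : padicNorm 2 (B (2 ^ v * m) (k + 1)) ≤ 1 := by
        rcases (show k + 1 ≤ 2 ^ v by omega).lt_or_eq with h5 | h5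
        · exact small _ h5
        · rwa [h5]
      rw [padicNorm.mul]
      exact mul_lt_one_of_nonneg_of_lt_one_left (padicNorm.nonneg _)
        ((padicNorm.nat_lt_one_iff _).mpr h4) h6
    rw [h3] at this
    simp at this
  · by_contra hc
    exact (odd_den _).mpr (small n (by omega)) hn

end Pool.Agent.Results.MP_375cbb_nt.Odd
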